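import Pool.Agent.N798.S.Stm

set_option autoImplicit false

/-!
Project S (helper798), SPL: sums over an interval, away from finitely many points. By helper75.
-/

namespace Pool.Agent.N75.S

open Finset

theorem norm_sum_le_len (f : ℕ → ℂ) (hf : ∀ n, ‖f n‖ ≤ 1) (A B : ℕ) (h : A ≤ B) :
    ‖∑ n ∈ Ioc A B, f n‖ ≤ (B : ℝ) - A := by
  calc ‖∑ n ∈ Ioc A B, f n‖ ≤ ∑ n ∈ Ioc A B, ‖f n‖ := norm_sum_le _ _
    _ ≤ ∑ n ∈ Ioc A B, (1 : ℝ) := Finset.sum_le_sum fun n _ => hf n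
    _ = (B : ℝ) - A := by
      rw [Finset.sum_const, Nat.card_Ioc, nsmul_eq_mul, mul_one, Nat.cast_sub h]

theorem spl_aux (f : ℕ → ℂ) (s : Finset ℝ) (ρ M : ℝ) (hf : ∀ n, ‖f n‖ ≤ 1) (hρ : 0 < ρ)
    (A₀ B₀ : ℕ)
    (hM : ∀ A' B' : ℕ, A₀ ≤ A' → A' ≤ B' → B' ≤ B₀ →
      (∀ x ∈ Set.Icc ((A' : ℝ) + 1) B', ∀ r ∈ s, ρ ≤ |x - r|) → ‖∑ n ∈ Ioc A' B', f n‖ ≤ M)
    (t : Finset ℝ) : ∀ A B : ℕ, A₀ ≤ A → A ≤ B → B ≤ B₀ →
      (∀ x ∈ Set.Icc ((A : ℝ) + 1) B, ∀ r ∈ s, r ∉ t → ρ ≤ |x - r|) →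
      ‖∑ n ∈ Ioc A B, f n‖ ≤ (t.card + 1) * M + t.card * (2 * ρ + 2) := by
  induction t using Finset.induction_on_min with
  | empty =>
    intro A B h1 h2 h3 h4
    have h5 := hM A B h1 h2 h3 (fun x hx r hr => h4 x hx r hr (by simp))
    simpa using h5
  | insert a t hat ih =>
    intro A B h1 h2 h3 h4
    have hna : a ∉ t := fun h => lt_irrefl a (hat a h)
    obtain ⟨A1, hA1⟩ : ∃ A1, A1 = max A (min B ⌊a - ρ⌋₊) := ⟨_, rfl⟩
    obtain ⟨B1, hB1⟩ : ∃ B1, B1 = max A1 (min B ⌈a + ρ - 1⌉₊) := ⟨_, rfl⟩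
    have hA : A ≤ A1 := by omega
    have hAB : A1 ≤ B1 := by omega
    have hB : B1 ≤ B := by omega
    -- left piece
    have hl : ‖∑ n ∈ Ioc A A1, f n‖ ≤ M := by
      apply hM A A1 h1 hA (by omega)
      intro x hx r hr
      have hx1 : (A : ℝ) + 1 ≤ x := hx.1
      have hx2 : x ≤ A1 := hx.2
      have hx3 : (A1 : ℝ) ≤ B := by exact_mod_cast (by omega : A1 ≤ B)
      by_cases hrt : r ∈ insert a t
      · have har : a ≤ r := by
          rcases Finset.mem_insert.mp hrt with h | h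
          · exact h.ge
          · exact (hat r h).le
        have h5 : A < A1 := by
          have : (A : ℝ) < A1 := by linarith
          exact_mod_cast this
        have h6 : A1 ≤ ⌊a - ρ⌋₊ := by omega
        have h7 : 0 < ⌊a - ρ⌋₊ := by omega
        have h8 : (0 : ℝ) ≤ a - ρ := by
          have := Nat.pos_of_floor_pos h7
          exact this.le
        have h9 := Nat.floor_le h8
        have h10 : (A1 : ℝ) ≤ (⌊a - ρ⌋₊ : ℝ) := by exact_mod_cast h6
        rw [abs_sub_comm]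
        have : ρ ≤ r - x := by linarith
        exact this.trans (le_abs_self _)
      · exact h4 x ⟨hx1, by linarith⟩ r hr hrt
    -- middle piece
    have hm : ‖∑ n ∈ Ioc A1 B1, f n‖ ≤ 2 * ρ + 2 := by
      refine (norm_sum_le_len f hf A1 B1 hAB).trans ?_
      rcases eq_or_lt_of_le hAB with h | h
      · rw [h, sub_self]
        linarith
      · have h5 : B1 ≤ ⌈a + ρ - 1⌉₊ := by omega
        have h6 : 0 < ⌈a + ρ - 1⌉₊ := by omega
        have h7 : 0 < a + ρ - 1 := Nat.ceil_pos.mp h6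
        have h8 := Nat.ceil_lt_add_one h7.le
        have h9 : (B1 : ℝ) ≤ (⌈a + ρ - 1⌉₊ : ℝ) := by exact_mod_cast h5
        have h10 : ⌊a - ρ⌋₊ ≤ A1 := by omega
        have h11 : (⌊a - ρ⌋₊ : ℝ) ≤ A1 := by exact_mod_cast h10
        have h12 := Nat.lt_floor_add_one (a - ρ)
        linarith
    -- right piece
    have hr : ‖∑ n ∈ Ioc B1 B, f n‖ ≤ (t.card + 1) * M + t.card * (2 * ρ + 2) := by
      apply ih B1 B (by omega) hB h3
      intro x hx r hr hrt
      have hx1 : (B1 : ℝ) + 1 ≤ x := hx.1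
      have hx2 : x ≤ B := hx.2
      by_cases hra : r = a
      · rw [hra]
        have h5 : B1 < B := by
          have : (B1 : ℝ) < B := by linarith
          exact_mod_cast this
        have h6 : ⌈a + ρ - 1⌉₊ ≤ B1 := by omega
        have h7 := Nat.le_ceil (a + ρ - 1)
        have h8 : (⌈a + ρ - 1⌉₊ : ℝ) ≤ B1 := by exact_mod_cast h6
        have : ρ ≤ x - a := by linarith
        exact this.trans (le_abs_self _)
      · apply h4 x ⟨?_, hx2⟩ r hr
        · intro h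
          rcases Finset.mem_insert.mp h with h | h
          · exact hra h
          · exact hrt h
        · have : (A : ℝ) ≤ B1 := by exact_mod_cast (by omega : A ≤ B1)
          linarith
    have hsum : ∑ n ∈ Ioc A B, f n =
        ∑ n ∈ Ioc A A1, f n + ∑ n ∈ Ioc A1 B1, f n + ∑ n ∈ Ioc B1 B, f n := by
      rw [Finset.sum_Ioc_consecutive f hA hAB, Finset.sum_Ioc_consecutive f (hA.trans hAB) hB]
    rw [hsum, Finset.card_insert_of_notMem hna]
    have h5 := norm_add_le (∑ n ∈ Ioc A A1, f n + ∑ n ∈ Ioc A1 B1, f n) (∑ n ∈ Ioc B1 B, f n)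
    have h6 := norm_add_le (∑ n ∈ Ioc A A1, f n) (∑ n ∈ Ioc A1 B1, f n)
    push_cast
    linarith

/-- **SPL** -/
theorem spl : Pool.Agent.N798.S.S_SPL := by
  intro f s ρ M hf hρ _ A B hAB hM
  exact spl_aux f s ρ M hf hρ A B hM s A B le_rfl hAB le_rfl
    (fun x _ r hr hrt => absurd hr hrt)

end Pool.Agent.N75.S
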